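import Pool.Agent.Q149.OP.Res2
import Pool.Agent.Q103.OP.Defs

/-!
# Project OP, job RES: the push forward and derivations
-/

set_option autoImplicit false

namespace Pool.Agent.Q149.OP

open Polynomial Finset Pool.Agent.Q103.OP

universe u

variable {K : Type u} [Field K]

/-- the modulus -/
noncomputable abbrev MM (p q : K[X]) (P : Finset K) : K[X] := nd P * Wr p q

theorem Wr_ne {d : ℕ} {p q : K[X]} {P : Finset K} (h : Pcf d p q P) : Wr p q ≠ 0 := by
  intro h0
  have h1 := h.degW
  rw [h0, natDegree_zero] at h1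
  have := h.two_le
  omega

theorem MM_ne {d : ℕ} {p q : K[X]} {P : Finset K} (h : Pcf d p q P) : MM p q P ≠ 0 := mul_ne_zero (nd_ne P) (Wr_ne h)

theorem MM_deg {d : ℕ} {p q : K[X]} {P : Finset K} (h : Pcf d p q P) : (MM p q P).natDegree = P.card + (2 * d - 2) := by
  rw [natDegree_mul (nd_ne P) (Wr_ne h), nd_deg, h.degW]

theorem root_MM {d : ℕ} {p q : K[X]} {P : Finset K} (h : Pcf d p q P) {x : K} (hx : (MM p q P).eval x = 0) :
    q.eval x ≠ 0 ∧ p.eval x / q.eval x ∈ P := by
  rw [eval_mul, mul_eq_zero] at hx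
  rcases hx with hx | hx
  · exact h.inv x (nd_eval_eq_zero.1 hx)
  · exact h.crit x hx

theorem sub_ne {d : ℕ} {p q : K[X]} {P : Finset K} (h : Pcf d p q P) (y : K) : p - C y * q ≠ 0 := by
  intro h0
  apply Wr_ne h
  have hp : p = C y * q := sub_eq_zero.1 h0
  unfold Wr
  rw [hp, derivative_C_mul]
  ring

theorem Wr_mult [CharZero K] {d : ℕ} {p q : K[X]} {P : Finset K} (h : Pcf d p q P) {x y : K} (hq : q.eval x ≠ 0)
    (hy : (p - C y * q).eval x = 0) : (Wr p q).rootMultiplicity x + 1 ≤ (p - C y * q).rootMultiplicity x := by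
  have hr0 : p - C y * q ≠ 0 := sub_ne h y
  have hW : Wr p q = derivative (p - C y * q) * q - (p - C y * q) * derivative q := by
    unfold Wr
    rw [derivative_sub, derivative_C_mul]
    ring
  set r := p - C y * q with hr
  obtain ⟨k, hk, hkn⟩ := exists_eq_pow_rootMultiplicity_mul_and_not_dvd r hr0 x
  have he : 0 < r.rootMultiplicity x := (rootMultiplicity_pos hr0).2 hy
  obtain ⟨e, he'⟩ : ∃ e, r.rootMultiplicity x = e + 1 := ⟨_, (Nat.succ_pred_eq_of_pos he).symm⟩
  rw [he'] at hk
  rw [he']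
  refine Nat.add_le_add_right ((rootMultiplicity_le_iff (Wr_ne h) x e).2 fun hdvd => ?_) 1
  have hW2 : Wr p q = (X - C x) ^ e * (C ((e : K) + 1) * k * q + (X - C x) * (derivative k * q - k * derivative q)) := by
    rw [hW, hk, derivative_mul, derivative_pow, derivative_sub, derivative_X, derivative_C]
    simp only [Nat.add_sub_cancel, Nat.cast_add, Nat.cast_one, C_add, C_1, map_natCast]
    ring
  rw [hW2, pow_succ] at hdvd
  have h2 := (mul_dvd_mul_iff_left (pow_ne_zero e (X_sub_C_ne_zero x))).1 hdvd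
  rw [dvd_iff_isRoot, IsRoot.def] at h2
  simp only [eval_add, eval_mul, eval_sub, eval_C, eval_X, sub_self, zero_mul, add_zero] at h2
  rw [dvd_iff_isRoot, IsRoot.def] at hkn
  have h3 : (e : K) + 1 ≠ 0 := Nat.cast_add_one_ne_zero e
  exact mul_ne_zero (mul_ne_zero h3 hkn) hq h2

theorem nd_mult (P : Finset K) (x : K) : (nd P).rootMultiplicity x ≤ 1 := by
  rw [rootMultiplicity_le_iff (nd_ne P)]
  rintro ⟨k, hk⟩
  have h1 : (nd P).eval x = 0 := by
    rw [hk, eval_mul, eval_pow, eval_sub, eval_X, eval_C, sub_self]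
    simp
  refine nd_der_ne (nd_eval_eq_zero.1 h1) ?_
  rw [hk, derivative_mul, derivative_pow, eval_add, eval_mul, eval_mul, eval_mul, eval_pow]
  simp

theorem MM_dvd [CharZero K] [IsAlgClosed K] {d : ℕ} {p q : K[X]} {P : Finset K} (h : Pcf d p q P) :
    MM p q P ∣ ∏ y ∈ P, (p - C y * q) := by
  classical
  have h0 : ∏ y ∈ P, (p - C y * q) ≠ 0 := Finset.prod_ne_zero_iff.2 fun y _ => sub_ne h y
  rw [IsAlgClosed.dvd_iff_roots_le_roots (MM_ne h) h0, Multiset.le_iff_count]
  intro x
  rw [count_roots, count_roots]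
  by_cases hx : (MM p q P).eval x = 0
  · obtain ⟨hq, hy⟩ := root_MM h hx
    have h1 : (p - C (p.eval x / q.eval x) * q).eval x = 0 := by
      rw [eval_sub, eval_C_mul, div_mul_cancel₀ _ hq, sub_self]
    have h2 := Wr_mult h hq h1
    have h3 : (MM p q P).rootMultiplicity x = (nd P).rootMultiplicity x + (Wr p q).rootMultiplicity x :=
      rootMultiplicity_mul (MM_ne h)
    have h4 := nd_mult P x
    have h5 : (p - C (p.eval x / q.eval x) * q).rootMultiplicity x ≤ (∏ y ∈ P, (p - C y * q)).rootMultiplicity x :=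
      rootMultiplicity_le_rootMultiplicity_of_dvd h0 (Finset.dvd_prod_of_mem (fun y => p - C y * q) hy) x
    omega
  · rw [rootMultiplicity_eq_zero hx]
    exact Nat.zero_le _

theorem cop_MM [IsAlgClosed K] {d : ℕ} {p q : K[X]} {P : Finset K} (h : Pcf d p q P) : IsCoprime q (MM p q P) := by
  rw [Polynomial.isCoprime_iff_aeval_ne_zero_of_isAlgClosed K K]
  intro x
  by_cases hx : (MM p q P).eval x = 0
  · left
    rw [coe_aeval_eq_eval]
    exact (root_MM h hx).1
  · right
    rw [coe_aeval_eq_eval]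
    exact hx

theorem prod_congr_dvd {M : K[X]} {ι : Type*} (s : Finset ι) (f g : ι → K[X]) (h : ∀ i ∈ s, M ∣ f i - g i) :
    M ∣ ∏ i ∈ s, f i - ∏ i ∈ s, g i := by
  classical
  induction s using Finset.induction_on with
  | empty => simp
  | insert i s hi ih =>
    rw [Finset.prod_insert hi, Finset.prod_insert hi]
    have e : f i * ∏ i ∈ s, f i - g i * ∏ i ∈ s, g i = (f i - g i) * ∏ i ∈ s, f i + g i * (∏ i ∈ s, f i - ∏ i ∈ s, g i) := by ring
    rw [e]
    exact dvd_add (Dvd.dvd.mul_right (h i (Finset.mem_insert_self i s)) _)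
      (Dvd.dvd.mul_left (ih fun j hj => h j (Finset.mem_insert_of_mem hj)) _)

/-- the element `f = p / q` of the algebra -/
theorem exists_F [CharZero K] [IsAlgClosed K] {d : ℕ} {p q : K[X]} {P : Finset K} (h : Pcf d p q P) :
    ∃ F : K[X], MM p q P ∣ q * F - p ∧ MM p q P ∣ (nd P).comp F := by
  obtain ⟨u, v, huv⟩ := cop_MM h
  refine ⟨p * u, ?_, ?_⟩
  · refine ⟨-(p * v), ?_⟩
    linear_combination p * huv
  · have h1 : (nd P).comp (p * u) = ∏ y ∈ P, (p * u - C y) := by
      rw [nd_eq, C_1, one_mul, Polynomial.prod_comp]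
      simp
    have h2 : MM p q P ∣ ∏ y ∈ P, (p * u - C y) - ∏ y ∈ P, (u * (p - C y * q)) := by
      apply prod_congr_dvd
      intro y _
      refine ⟨-(C y * v), ?_⟩
      linear_combination C y * huv
    have h3 : MM p q P ∣ ∏ y ∈ P, (u * (p - C y * q)) := by
      rw [Finset.prod_mul_distrib]
      exact Dvd.dvd.mul_left (MM_dvd h) _
    rw [h1]
    exact (dvd_iff_dvd_of_dvd_sub h2).2 h3

/-- the push forward -/
noncomputable def TT (p q : K[X]) (P : Finset K) (F : K[X]) : (K → K) →ₗ[K] (K → K) where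
  toFun a := fun y => ell (MM p q P) (Sa P a * q ^ 2 * ee P F y)
  map_add' a b := by
    funext y
    rw [Pi.add_apply, Sa_add, add_mul, add_mul, ell_add]
  map_smul' c a := by
    funext y
    rw [Pi.smul_apply, Sa_smul, mul_assoc, mul_assoc, ell_C_mul, RingHom.id_apply, smul_eq_mul, mul_assoc]

theorem TT_sum (p q : K[X]) (P : Finset K) (F : K[X]) (a c : K → K) :
    ∑ y ∈ P, TT p q P F a y * c y = ell (MM p q P) (Sa P a * q ^ 2 * ∑ y ∈ P, C (c y) * ee P F y) := by
  rw [Finset.mul_sum, ell_sum]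
  refine Finset.sum_congr rfl fun y _ => ?_
  have : Sa P a * q ^ 2 * (C (c y) * ee P F y) = C (c y) * (Sa P a * q ^ 2 * ee P F y) := by ring
  rw [this, ell_C_mul, mul_comm]
  rfl

theorem TT_eval {p q : K[X]} {P : Finset K} {F : K[X]} (hF : MM p q P ∣ (nd P).comp F) (a : K → K) (G : K[X]) :
    ∑ y ∈ P, TT p q P F a y * G.eval y = ell (MM p q P) (Sa P a * q ^ 2 * G.comp F) := by
  rw [TT_sum p q P F a fun y => G.eval y]
  apply ell_congr
  rw [← mul_sub]
  apply Dvd.dvd.mul_left
  rw [dvd_sub_comm]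
  exact comp_interp hF G

theorem Sa_deg' {P : Finset K} {a : K → K} (ha : Qd P a) : Sa P a = 0 ∨ (Sa P a).natDegree + 4 ≤ P.card :=
  Sa_deg ha.1 ha.2.1 ha.2.2

/-- vanishing by degree -/
theorem ell_small {M r : K[X]} {P : Finset K} {a : K → K} (ha : Qd P a) {n : ℕ} (hr : r.natDegree ≤ n)
    (hM : P.card + n ≤ M.natDegree + 2) : ell M (Sa P a * r) = 0 := by
  rcases Sa_deg' ha with h | h
  · rw [h, zero_mul, ell_zero]
  · apply ell_eq_zero
    have := natDegree_mul_le (p := Sa P a) (q := r)
    omega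

theorem part_Qd [CharZero K] {d : ℕ} {p q : K[X]} {P : Finset K} (h : Pcf d p q P) {F : K[X]}
    (hF1 : MM p q P ∣ q * F - p) (hF : MM p q P ∣ (nd P).comp F) {a : K → K} (ha : Qd P a) : Qd P (TT p q P F a) := by
  have hd := h.two_le
  have hM := MM_deg h
  have hp := h.degp
  have hq := h.degq
  have key : ∀ (G r : K[X]), r.natDegree ≤ 2 * d → MM p q P ∣ q ^ 2 * G.comp F - r →
      ∑ y ∈ P, TT p q P F a y * G.eval y = 0 := by
    intro G r hr hG
    rw [TT_eval hF, ell_congr (h' := Sa P a * r), ell_small ha hr (by rw [hM]; omega)]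
    have : Sa P a * q ^ 2 * G.comp F - Sa P a * r = Sa P a * (q ^ 2 * G.comp F - r) := by ring
    rw [this]
    exact Dvd.dvd.mul_left hG _
  refine ⟨?_, ?_, ?_⟩
  · have := key 1 (q ^ 2) ((natDegree_pow_le).trans (by omega)) (by simp)
    simpa using this
  · have := key X (q * p) (natDegree_mul_le.trans (by omega)) (by
      rw [X_comp]
      have : q ^ 2 * F - q * p = q * (q * F - p) := by ring
      rw [this]
      exact Dvd.dvd.mul_left hF1 _)
    simpa using this
  · have := key (X ^ 2) (p ^ 2) ((natDegree_pow_le).trans (by omega)) (by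
      rw [X_pow_comp]
      have : q ^ 2 * F ^ 2 - p ^ 2 = (q * F + p) * (q * F - p) := by ring
      rw [this]
      exact Dvd.dvd.mul_left hF1 _)
    simpa using this

theorem part_push [CharZero K] [IsAlgClosed K] {d : ℕ} {p q : K[X]} {P : Finset K} (h : Pcf d p q P) {F : K[X]}
    (hF1 : MM p q P ∣ q * F - p) (hF : MM p q P ∣ (nd P).comp F) {a : K → K} (ha : Qd P a) {w : K} (hw : w ∉ P)
    (hwd : w ≠ p.coeff d) : push p q P a w = qd P (TT p q P F a) w := by
  classical
  have hd := h.two_le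
  have hM := MM_deg h
  have hp := h.degp
  have hq := h.degq
  have hqc : q.coeff d = 1 := by
    have := h.monic
    rw [Monic, leadingCoeff, hq] at this
    exact this
  set U : K[X] := C w * q - p with hU
  have hUc : U.coeff d ≠ 0 := by
    rw [hU, coeff_sub, coeff_C_mul, hqc, mul_one, sub_ne_zero]
    exact hwd
  have hU0 : U ≠ 0 := by
    intro h0
    rw [h0] at hUc
    simp at hUc
  have hUd : U.natDegree = d := by
    apply le_antisymm
    · refine (natDegree_sub_le _ _).trans (max_le ((natDegree_C_mul_le _ _).trans hq.le) hp)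
    · exact le_natDegree_of_ne_zero hUc
  -- at the zeros of `U`
  have hz1 : ∀ z, U.eval z = 0 → q.eval z ≠ 0 := by
    intro z hz hqz
    obtain ⟨α, β, hαβ⟩ := h.cop
    have h1 : p.eval z = 0 := by
      rw [hU, eval_sub, eval_C_mul, hqz, mul_zero, zero_sub, neg_eq_zero] at hz
      exact hz
    have h2 := congrArg (eval z) hαβ
    rw [eval_add, eval_mul, eval_mul, h1, hqz] at h2
    simp at h2
  have hz2 : ∀ z, U.eval z = 0 → p.eval z = w * q.eval z := by
    intro z hz
    rw [hU, eval_sub, eval_C_mul] at hz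
    linear_combination -hz
  have hz3 : ∀ z, U.eval z = 0 → (MM p q P).eval z ≠ 0 := by
    intro z hz hMz
    have h1 := (root_MM h hMz).2
    rw [hz2 z hz, mul_div_assoc, div_self (hz1 z hz), mul_one] at h1
    exact hw h1
  have hz4 : ∀ z, U.eval z = 0 → (nd P).eval z ≠ 0 ∧ (Wr p q).eval z ≠ 0 := by
    intro z hz
    have := hz3 z hz
    rw [eval_mul] at this
    exact ⟨left_ne_zero_of_mul this, right_ne_zero_of_mul this⟩
  have hz5 : ∀ z, U.eval z = 0 → (derivative U).eval z = -((Wr p q).eval z / q.eval z) := by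
    intro z hz
    have h1 := hz2 z hz
    have h2 := hz1 z hz
    rw [hU, derivative_sub, derivative_C_mul]
    unfold Wr
    rw [eval_sub, eval_C_mul, eval_sub, eval_mul, eval_mul, h1]
    field_simp
    ring
  -- simple zeros
  have hnod : U.roots.Nodup := by
    rw [Multiset.nodup_iff_count_le_one]
    intro z
    rw [count_roots]
    by_cases hz : U.eval z = 0
    · rw [rootMultiplicity_le_iff hU0]
      rintro ⟨k, hk⟩
      have h1 : (derivative U).eval z = 0 := by
        rw [hk, derivative_mul, derivative_pow, eval_add, eval_mul, eval_mul, eval_mul, eval_pow]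
        simp
      rw [hz5 z hz, neg_eq_zero, div_eq_zero_iff] at h1
      rcases h1 with h1 | h1
      · exact (hz4 z hz).2 h1
      · exact hz1 z hz h1
    · rw [rootMultiplicity_eq_zero hz]
      exact Nat.zero_le _
  set S : Finset K := U.roots.toFinset with hS
  have hSv : S.val = U.roots := by
    rw [hS, Multiset.toFinset_val, Multiset.dedup_eq_self.2 hnod]
  have hlc : U.leadingCoeff ≠ 0 := leadingCoeff_ne_zero.2 hU0
  have hUprod : U = C U.leadingCoeff * ∏ z ∈ S, (X - C z) := by
    have h1 := (IsAlgClosed.splits U).eq_prod_roots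
    have h2 : ∏ z ∈ S, (X - C z) = (U.roots.map fun z => X - C z).prod := by
      rw [← hSv]
      rfl
    rw [h2]
    exact h1
  have hSmem : ∀ z ∈ S, U.eval z = 0 := by
    intro z hz
    rw [hS, Multiset.mem_toFinset, mem_roots hU0] at hz
    exact hz
  -- coprimality
  obtain ⟨α, β, hαβ⟩ : IsCoprime (MM p q P) U := by
    rw [Polynomial.isCoprime_iff_aeval_ne_zero_of_isAlgClosed K K]
    intro x
    by_cases hx : U.eval x = 0
    · left
      rw [coe_aeval_eq_eval]
      exact hz3 x hx
    · right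
      rw [coe_aeval_eq_eval]
      exact hx
  -- the interpolation of `1 / (w - y)`
  set G : K[X] := Lagrange.interpolate P (id : K → K) (fun y => 1 / (w - y)) with hG
  have hGe : ∀ y ∈ P, G.eval y = 1 / (w - y) := by
    intro y hy
    have := Lagrange.eval_interpolate_at_node (s := P) (v := (id : K → K)) (fun y => 1 / (w - y)) Function.injective_id.injOn hy
    exact this
  have hqd : qd P (TT p q P F a) w = ell (MM p q P) (Sa P a * q ^ 2 * G.comp F) := by
    rw [← TT_eval hF]
    unfold qd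
    refine Finset.sum_congr rfl fun y hy => ?_
    rw [hGe y hy]
    ring
  have hG1 : MM p q P ∣ (C w - F) * G.comp F - 1 := by
    have h1 : nd P ∣ (C w - X) * G - 1 := by
      apply nodal_dvd
      intro y hy
      have h2 : w - y ≠ 0 := by
        rw [sub_ne_zero]
        rintro rfl
        exact hw hy
      rw [eval_sub, eval_mul, eval_sub, eval_C, eval_X, hGe y hy, eval_one]
      field_simp
      ring
    obtain ⟨k, hk⟩ := h1
    have h3 : (C w - F) * G.comp F - 1 = (nd P).comp F * k.comp F := by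
      rw [← mul_comp, ← hk, sub_comp, mul_comp, sub_comp, C_comp, X_comp, one_comp]
    rw [h3]
    exact Dvd.dvd.mul_right hF _
  have hG2 : MM p q P ∣ G.comp F - q * β := by
    -- `G (1 - α M) = G β U`, `U = q (w - F) + (q F - p)`
    have e : G.comp F - q * β = (G.comp F * α) * MM p q P + (q * β) * ((C w - F) * G.comp F - 1) + (G.comp F * β) * (q * F - p) := by
      have h1 : α * MM p q P = 1 - β * U := by linear_combination hαβ
      rw [mul_assoc (G.comp F), h1, hU]
      ring
    rw [e]
    exact dvd_add (dvd_add (Dvd.dvd.mul_left dvd_rfl _) (Dvd.dvd.mul_left hG1 _)) (Dvd.dvd.mul_left hF1 _)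
  have h1 : ell (MM p q P) (Sa P a * q ^ 2 * G.comp F) = ell (MM p q P) (Sa P a * q ^ 3 * β) := by
    apply ell_congr
    have : Sa P a * q ^ 2 * G.comp F - Sa P a * q ^ 3 * β = Sa P a * q ^ 2 * (G.comp F - q * β) := by ring
    rw [this]
    exact Dvd.dvd.mul_left hG2 _
  have h2 : ell (MM p q P * U) (Sa P a * q ^ 3) = 0 := by
    refine ell_small ha (n := 3 * d) ((natDegree_pow_le).trans (by omega)) ?_
    rw [natDegree_mul (MM_ne h) hU0, hM, hUd]
    omega
  have h3 := ell_coprime (MM_ne h) hU0 hαβ (Sa P a * q ^ 3)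
  rw [h2] at h3
  have h4 : ell U (Sa P a * q ^ 3 * α) = ∑ z ∈ S, (Sa P a * q ^ 3 * α).eval z / (derivative U).eval z := by
    conv_lhs => rw [hUprod]
    rw [ell_simple hlc, ← hUprod]
  have h5 : push p q P a w = -∑ z ∈ S, (Sa P a * q ^ 3 * α).eval z / (derivative U).eval z := by
    unfold push
    have hr : (p - C w * q).roots = U.roots := by
      have : p - C w * q = -U := by rw [hU]; ring
      rw [this, roots_neg]
    rw [hr, ← hSv, ← Finset.sum_neg_distrib]
    refine Finset.sum_congr rfl fun z hz => ?_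
    have hz' := hSmem z hz
    have n1 := hz1 z hz'
    obtain ⟨n2, n3⟩ := hz4 z hz'
    have n4 : z ∉ P := fun hh => n2 (nd_eval_eq_zero.2 hh)
    have h6 : α.eval z = 1 / ((nd P).eval z * (Wr p q).eval z) := by
      have := congrArg (eval z) hαβ
      rw [eval_add, eval_mul, eval_mul, eval_mul, hz', mul_zero, add_zero, eval_one] at this
      rw [eq_div_iff (mul_ne_zero n2 n3)]
      exact this
    have h7 : qd P a z = (Sa P a).eval z / (nd P).eval z := (Sa_eval_div a n4).symm
    rw [h7, hz5 z hz', eval_mul, eval_mul, eval_pow, h6]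
    field_simp
  rw [hqd, h1, h5, ← h4]
  linear_combination h3

theorem part_der [CharZero K] [IsAlgClosed K] {d : ℕ} {p q : K[X]} {P : Finset K} (h : Pcf d p q P) {F : K[X]}
    (hF1 : MM p q P ∣ q * F - p) (hF : MM p q P ∣ (nd P).comp F) {a : K → K} (ha : Qd P a) (D : Derivation ℤ K K) :
    ∑ y ∈ P, TT p q P F a y * D y = ∑ x ∈ P, a x * D x := by
  classical
  let _ : Differential K := ⟨D⟩
  have hD : ∀ x : K, (Differential.deriv x : K) = D x := fun _ => rfl
  have hd := h.two_le
  have hM := MM_deg h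
  have hp := h.degp
  have hq := h.degq
  set E : K[X] := Lagrange.interpolate (MM p q P).roots.toFinset (id : K → K) (fun x => D x) with hE
  have hEe : ∀ x ∈ (MM p q P).roots, E.eval x = D x := by
    intro x hx
    have := Lagrange.eval_interpolate_at_node (s := (MM p q P).roots.toFinset) (v := (id : K → K)) (fun x => D x)
      Function.injective_id.injOn (Multiset.mem_toFinset.2 hx)
    exact this
  set δ : Derivation ℤ K[X] K[X] := Differential.implicitDeriv E with hδ
  have hδM : ∀ k, MM p q P ∣ k → MM p q P ∣ δ k := fun k hk => dvd_der E hEe k hk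
  have hδe : ∀ r : K[X], δ r = Differential.mapCoeffs r + E * derivative r := fun r => rfl
  -- the derivation kills the idempotents
  have k1 : MM p q P ∣ F - ∑ y ∈ P, C y * ee P F y := by
    have := comp_interp hF X
    simpa using this
  have k2 : MM p q P ∣ δ F - ∑ y ∈ P, C (D y) * ee P F y := by
    have h1 := hδM _ k1
    rw [map_sub, map_sum] at h1
    have h2 : MM p q P ∣ ∑ y ∈ P, δ (C y * ee P F y) - ∑ y ∈ P, C (D y) * ee P F y := by
      rw [← Finset.sum_sub_distrib]
      refine Finset.dvd_sum fun y hy => ?_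
      rw [Derivation.leibniz, smul_eq_mul, smul_eq_mul, hδ, Differential.implicitDeriv_C, hD]
      have : C y * Differential.implicitDeriv E (ee P F y) + ee P F y * C (D y) - C (D y) * ee P F y =
        C y * Differential.implicitDeriv E (ee P F y) := by ring
      rw [this]
      exact Dvd.dvd.mul_left (der_idem δ hδM (ee_idem hF hy)) _
    have := dvd_add h1 h2
    have e : δ F - ∑ y ∈ P, δ (C y * ee P F y) + (∑ y ∈ P, δ (C y * ee P F y) - ∑ y ∈ P, C (D y) * ee P F y) =
      δ F - ∑ y ∈ P, C (D y) * ee P F y := by ring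
    rwa [e] at this
  have k3 : MM p q P ∣ q ^ 2 * δ F - (q * δ p - p * δ q) := by
    have h1 := hδM _ hF1
    rw [map_sub, Derivation.leibniz, smul_eq_mul, smul_eq_mul] at h1
    have e : q ^ 2 * δ F - (q * δ p - p * δ q) = q * (q * δ F + F * δ q - δ p) - δ q * (q * F - p) := by ring
    rw [e]
    exact dvd_sub (Dvd.dvd.mul_left h1 _) (Dvd.dvd.mul_left hF1 _)
  have k4 : Sa P a * (q * δ p - p * δ q) =
      Sa P a * (q * Differential.mapCoeffs p - p * Differential.mapCoeffs q) + (Sa P a * E) * Wr p q := by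
    rw [hδe, hδe]
    unfold Wr
    ring
  have hdp : (Differential.mapCoeffs p).natDegree ≤ d := by
    rw [natDegree_le_iff_coeff_eq_zero]
    intro N hN
    rw [Differential.coeff_mapCoeffs, coeff_eq_zero_of_natDegree_lt (lt_of_le_of_lt hp hN)]
    exact map_zero _
  have hdq : (Differential.mapCoeffs q).natDegree ≤ d := by
    rw [natDegree_le_iff_coeff_eq_zero]
    intro N hN
    rw [Differential.coeff_mapCoeffs, coeff_eq_zero_of_natDegree_lt (lt_of_le_of_lt hq.le hN)]
    exact map_zero _
  rw [TT_sum p q P F a fun y => D y]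
  have k5 : ell (MM p q P) (Sa P a * q ^ 2 * ∑ y ∈ P, C (D y) * ee P F y) =
      ell (MM p q P) (Sa P a * (q * δ p - p * δ q)) := by
    apply ell_congr
    have e : Sa P a * q ^ 2 * ∑ y ∈ P, C (D y) * ee P F y - Sa P a * (q * δ p - p * δ q) =
      Sa P a * (q ^ 2 * δ F - (q * δ p - p * δ q)) - (Sa P a * q ^ 2) * (δ F - ∑ y ∈ P, C (D y) * ee P F y) := by ring
    rw [e]
    exact dvd_sub (Dvd.dvd.mul_left k3 _) (Dvd.dvd.mul_left k2 _)
  rw [k5, k4, ell_add, ell_mul_right (nd_ne P) (Wr_ne h), ell_Sa, ell_small ha (n := 2 * d), zero_add]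
  · refine Finset.sum_congr rfl fun x hx => ?_
    rw [hEe x]
    rw [mem_roots (MM_ne h), IsRoot.def, eval_mul, nd_eval_eq_zero.2 hx, zero_mul]
  · refine (natDegree_sub_le _ _).trans (max_le (natDegree_mul_le.trans ?_) (natDegree_mul_le.trans ?_)) <;> omega
  · rw [hM]
    omega

/-- Job RES. -/
theorem t_RES : S_RES.{u} := by
  intro K _ _ _ d p q P h
  obtain ⟨F, hF1, hF⟩ := exists_F h
  refine ⟨TT p q P F, fun a ha => ⟨part_Qd h hF1 hF ha, fun w hw hwd => part_push h hF1 hF ha hw hwd, fun D => part_der h hF1 hF ha D⟩⟩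

end Pool.Agent.Q149.OP
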