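import Pool.Agent.Q289.OP.Stm

/-!
# Project OP (helper289), job DIS: the Poincare inequality for the discrete model
-/

set_option autoImplicit false
set_option linter.unusedSectionVars false
set_option linter.unusedVariables false

namespace Pool.Agent.Q149.OP

open Q289.OP Finset

variable {ι : Type} [Fintype ι] [DecidableEq ι] [PartialOrder ι] {N : ℕ}

theorem sum_one (q f : Fin (N + 1) → ℝ) (i : ι) :
    ∑ c : ι → Fin (N + 1), (∏ j, q (c j)) * f (c i) =
      (∏ j ∈ univ.erase i, ∑ b, q b) * ∑ b, q b * f b := by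
  have h1 : ∏ j : ι, ∑ b : Fin (N + 1), (if j = i then q b * f b else q b) =
      ∑ c : ι → Fin (N + 1), ∏ j, (if j = i then q (c j) * f (c j) else q (c j)) := by
    rw [Finset.prod_univ_sum, Fintype.piFinset_univ]
  have h2 : ∀ c : ι → Fin (N + 1), ∏ j, (if j = i then q (c j) * f (c j) else q (c j)) =
      (∏ j, q (c j)) * f (c i) := by
    intro c
    have h3 : ∀ j, (if j = i then q (c j) * f (c j) else q (c j)) =
        q (c j) * (if j = i then f (c j) else 1) := by
      intro j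
      split_ifs
      · rfl
      · rw [mul_one]
    simp only [h3]
    rw [Finset.prod_mul_distrib, Finset.prod_ite_eq' univ i (fun j => f (c j)),
      if_pos (mem_univ i)]
  simp only [h2] at h1
  rw [← h1, ← Finset.prod_erase_mul univ _ (mem_univ i)]
  congr 1
  · refine Finset.prod_congr rfl fun j hj => ?_
    simp only [if_neg (Finset.ne_of_mem_erase hj)]
  · simp only [if_true]

/-- the mean minimises the sum of the squares of the deviations -/
theorem vr_le (w F : (ι → Fin (N + 1)) → ℝ) (hw : ∀ c, 0 ≤ w c) (k : ℝ) :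
    vr w F ≤ ∑ c, w c * (F c - k) ^ 2 := by
  have h0 : 0 ≤ ∑ c, w c := Finset.sum_nonneg fun c _ => hw c
  have h1 : (∑ c, w c) * mm w F = ∑ c, w c * F c := by
    rcases h0.eq_or_lt with h | h
    · have h2 : ∀ c, w c = 0 := fun c =>
        (Finset.sum_eq_zero_iff_of_nonneg (fun c _ => hw c)).1 h.symm c (mem_univ c)
      simp only [h2, zero_mul, Finset.sum_const_zero]
    · unfold mm
      rw [mul_div_cancel₀ _ h.ne']
  have h2 : ∑ c, w c * (F c - k) ^ 2 = vr w F + (∑ c, w c) * (mm w F - k) ^ 2 := by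
    have h3 : ∀ c, w c * (F c - k) ^ 2 = w c * (F c - mm w F) ^ 2 + w c * (mm w F - k) ^ 2 +
        2 * (mm w F - k) * (w c * F c) - 2 * (mm w F - k) * (w c * mm w F) := fun c => by ring
    simp only [h3]
    rw [Finset.sum_sub_distrib, Finset.sum_add_distrib, Finset.sum_add_distrib, ← Finset.sum_mul,
      ← Finset.mul_sum, ← Finset.mul_sum, ← Finset.sum_mul, h1]
    unfold vr
    ring
  rw [h2]
  exact le_add_of_nonneg_right (mul_nonneg h0 (sq_nonneg _))

/-- the conditional expectations depend only on the values at the points with positive weight -/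
theorem cE_congr (w F G : (ι → Fin (N + 1)) → ℝ) (h : ∀ c, w c * F c = w c * G c) (a : Fin N)
    (c : ι → Fin (N + 1)) : cE w a F c = cE w a G c := by
  unfold cE
  simp only [h]

theorem TT_iter (q : Fin (N + 1) → ℝ) (hw : ∀ c : ι → Fin (N + 1), ¬ Monotone c → ww q c = 0)
    (hclo : ∀ (a : Fin N) (g : Fin (N + 1) → ℝ) (c : ι → Fin (N + 1)), Monotone c →
      cE (ww q) a (fun d => ∑ i, g (d i)) c = ∑ i, t1 q a g (c i))
    (g : Fin (N + 1) → ℝ) (m : ℕ) (c : ι → Fin (N + 1)) (hc : Monotone c) :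
    ((TT (ww q))^[m] fun d => ∑ i, g (d i)) c = ∑ i, ((tt q)^[m] g) (c i) := by
  induction m generalizing c with
  | zero => rfl
  | succ m ih =>
    rw [Function.iterate_succ_apply', Function.iterate_succ_apply']
    unfold TT
    have h1 : ∀ a : Fin N, cE (ww q) a ((TT (ww q))^[m] fun d => ∑ i, g (d i)) c =
        ∑ i, t1 q a ((tt q)^[m] g) (c i) := by
      intro a
      rw [← hclo a _ c hc]
      refine cE_congr _ _ _ (fun d => ?_) a c
      by_cases hd : Monotone d
      · rw [ih d hd]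
      · rw [hw d hd, zero_mul, zero_mul]
    have h2 : (∑ a, cE (ww q) a ((TT (ww q))^[m] fun d => ∑ i, g (d i)) c) / (N : ℝ) =
        ∑ i, tt q ((tt q)^[m] g) (c i) := by
      simp only [h1]
      rw [Finset.sum_comm, Finset.sum_div]
      rfl
    exact h2

theorem vr_sum (q : Fin (N + 1) → ℝ) (hq : ∀ b, 0 < q b)
    (hv : ∀ c : ι → ℕ, 0 ≤ vv c ∧ vv c ≤ 1) (F : (ι → Fin (N + 1)) → ℝ)
    (h : Fin (N + 1) → ℝ) (hF : ∀ c, ww q c * F c = ww q c * ∑ i, h (c i)) (μ : ℝ) :
    vr (ww q) F ≤ (Fintype.card ι : ℝ) * (∑ i : ι, ∏ j ∈ univ.erase i, ∑ b, q b) *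
      ∑ b, q b * (h b - μ) ^ 2 := by
  have hw : ∀ c : ι → Fin (N + 1), 0 ≤ ww q c := fun c =>
    mul_nonneg (Finset.prod_nonneg fun i _ => (hq _).le) (hv _).1
  have hw1 : ∀ c : ι → Fin (N + 1), ww q c ≤ ∏ i, q (c i) := fun c =>
    mul_le_of_le_one_right (Finset.prod_nonneg fun i _ => (hq _).le) (hv _).2
  refine (vr_le (ww q) F hw ((Fintype.card ι : ℝ) * μ)).trans ?_
  have h1 : ∀ c : ι → Fin (N + 1), ww q c * (F c - (Fintype.card ι : ℝ) * μ) ^ 2 ≤
      (Fintype.card ι : ℝ) * ∑ i, (∏ j, q (c j)) * (h (c i) - μ) ^ 2 := by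
    intro c
    have h2 : ww q c * (F c - (Fintype.card ι : ℝ) * μ) ^ 2 =
        ww q c * (∑ i, (h (c i) - μ)) ^ 2 := by
      rcases (hw c).eq_or_lt with h3 | h3
      · rw [← h3, zero_mul, zero_mul]
      · have h4 := mul_left_cancel₀ h3.ne' (hF c)
        rw [h4, Finset.sum_sub_distrib, Finset.sum_const, Finset.card_univ, nsmul_eq_mul]
    rw [h2, ← Finset.mul_sum, mul_left_comm]
    refine mul_le_mul (hw1 c) ?_ (sq_nonneg _) (Finset.prod_nonneg fun i _ => (hq _).le)
    have h5 := sq_sum_le_card_mul_sum_sq (s := (univ : Finset ι)) (f := fun i => h (c i) - μ)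
    rwa [Finset.card_univ] at h5
  refine (Finset.sum_le_sum fun c _ => h1 c).trans (le_of_eq ?_)
  rw [← Finset.mul_sum, Finset.sum_comm, mul_assoc]
  congr 1
  rw [Finset.sum_mul]
  exact Finset.sum_congr rfl fun i _ => sum_one q (fun b => (h b - μ) ^ 2) i

theorem dis (h : S_ISW) (h1 : S_CLO) (h2 : S_1OP) (h3 : S_AOP) (h4 : S_VPOS) : S_DIS := by
  intro ι _ _ _ N q K hq hK hP F
  have hv : ∀ c : ι → ℕ, 0 ≤ vv c ∧ vv c ≤ 1 := fun c => ⟨(h4 ι c).1, (h4 ι c).2.1⟩
  have hW : IsW (ι := ι) (ww q) := h ι N q hq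
  rcases Nat.eq_zero_or_pos N with rfl | hN
  · have h5 : lv (ww q) F = 0 := by
      unfold lv
      exact Finset.sum_eq_zero fun a _ => a.elim0
    rw [h5, mul_zero]
    have h6 := vr_le (ww q) F hW.nonneg (F 0)
    refine h6.trans (le_of_eq (Finset.sum_eq_zero fun c _ => ?_))
    have : c = 0 := by
      funext i
      exact Fin.ext (Nat.lt_one_iff.1 (c i).isLt)
    rw [this, sub_self]
    ring
  · obtain ⟨hγ, hit⟩ := h2 N q K hN hq hK hP
    have hN' : (0 : ℝ) < N := Nat.cast_pos.2 hN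
    have h5 := h3 ι N (ww q) hN hW (fun c => ∑ i, (((c i : Fin (N + 1)) : ℕ) : ℝ))
      ((Fintype.card ι : ℝ) * (∑ i : ι, ∏ j ∈ univ.erase i, ∑ b, q b) *
        ∑ b : Fin (N + 1), q b * (((b : ℕ) : ℝ) - m1 q (fun b => ((b : ℕ) : ℝ))) ^ 2)
      (1 - 1 / (K * N)) ?_ hγ ?_ F
    · have h6 : (1 - (1 - 1 / (K * (N : ℝ)))) * vr (ww q) F = vr (ww q) F / (K * N) := by ring
      rw [h6, div_le_div_iff₀ (mul_pos hK hN') hN'] at h5
      have h7 : vr (ww q) F * N ≤ (K * lv (ww q) F) * N := by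
        calc vr (ww q) F * N ≤ lv (ww q) F * (K * N) := h5
          _ = (K * lv (ww q) F) * N := by ring
      exact le_of_mul_le_mul_right h7 hN'
    · intro c d hcd
      obtain ⟨hle, i, hi⟩ := Pi.lt_def.1 hcd
      have h6 : ∀ j, (((c j : Fin (N + 1)) : ℕ) : ℝ) + (if j = i then 1 else 0) ≤
          (((d j : Fin (N + 1)) : ℕ) : ℝ) := by
        intro j
        split_ifs with hj
        · subst hj
          exact_mod_cast Nat.succ_le_of_lt (Fin.lt_def.1 hi)
        · rw [add_zero]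
          exact_mod_cast Fin.le_def.1 (hle j)
      have h7 := Finset.sum_le_sum fun j (_ : j ∈ (univ : Finset ι)) => h6 j
      rw [Finset.sum_add_distrib, Finset.sum_ite_eq' univ i (fun _ => (1 : ℝ)),
        if_pos (mem_univ i)] at h7
      exact h7
    · intro m
      have h6 := hit m (fun b : Fin (N + 1) => ((b : ℕ) : ℝ))
      have h7 := vr_sum q hq hv ((TT (ww q))^[m] fun c : ι → Fin (N + 1) =>
          ∑ i, (((c i : Fin (N + 1)) : ℕ) : ℝ))
        ((tt q)^[m] fun b : Fin (N + 1) => ((b : ℕ) : ℝ)) (fun c => by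
          by_cases hc : Monotone c
          · rw [TT_iter q (fun d hd => ?_) (h1 ι N q hq) (fun b : Fin (N + 1) => ((b : ℕ) : ℝ)) m c hc]
            exact le_antisymm (not_lt.1 fun h8 => hd ((hW.pos d).1 h8)) (hW.nonneg d)
          · have h8 : ww q c = 0 :=
              le_antisymm (not_lt.1 fun h8 => hc ((hW.pos c).1 h8)) (hW.nonneg c)
            rw [h8, zero_mul, zero_mul])
        (m1 q fun b => ((b : ℕ) : ℝ))
      refine h7.trans ?_
      rw [mul_assoc _ (∑ b : Fin (N + 1), _) _, mul_comm (∑ b : Fin (N + 1), _) ((1 - _) ^ _)]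
      refine mul_le_mul_of_nonneg_left h6 (mul_nonneg (Nat.cast_nonneg _) ?_)
      exact Finset.sum_nonneg fun i _ => Finset.prod_nonneg fun j _ =>
        Finset.sum_nonneg fun b _ => (hq b).le

end Pool.Agent.Q149.OP
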