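import Mathlib

/-!
# Project OP, job RES, part 1: the residue functional of a polynomial
-/

set_option autoImplicit false

namespace Pool.Agent.Q149.OP

open Polynomial Finset

variable {K : Type*} [Field K]

/-- the sum of all residues of `h / M` -/
noncomputable def ell (M h : K[X]) : K := (h % M).coeff (M.natDegree - 1) / M.leadingCoeff

theorem ell_add (M h h' : K[X]) : ell M (h + h') = ell M h + ell M h' := by
  unfold ell
  rw [add_mod, coeff_add, add_div]

theorem ell_congr {M h h' : K[X]} (H : M ∣ h - h') : ell M h = ell M h' := by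
  unfold ell
  rw [mod_eq_of_dvd_sub H]

theorem ell_of_lt {M h : K[X]} (hM : M ≠ 0) (H : h.degree < M.degree) :
    ell M h = h.coeff (M.natDegree - 1) / M.leadingCoeff := by
  unfold ell
  rw [(mod_eq_self_iff hM).2 H]

theorem dvd_sub_mod' (h M : K[X]) : M ∣ h - h % M := by
  refine ⟨h / M, ?_⟩
  have := EuclideanDomain.div_add_mod h M
  linear_combination -this

theorem ell_C_mul (M : K[X]) (c : K) (h : K[X]) : ell M (C c * h) = c * ell M h := by
  by_cases hM : M = 0
  · subst hM
    simp [ell]
  have h1 : ell M (C c * h) = ell M (C c * (h % M)) := by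
    apply ell_congr
    rw [← mul_sub]
    apply Dvd.dvd.mul_left
    exact dvd_sub_mod' _ _
  rw [h1, ell_of_lt hM]
  · unfold ell
    rw [coeff_C_mul, mul_div_assoc]
  · by_cases hc : c = 0
    · subst hc
      rw [C_0, zero_mul, degree_zero, bot_lt_iff_ne_bot, Ne, degree_eq_bot]
      exact hM
    · rw [degree_C_mul hc]
      exact degree_mod_lt h hM

theorem ell_zero (M : K[X]) : ell M 0 = 0 := by
  have := ell_C_mul M 0 0
  simpa using this

theorem ell_neg (M h : K[X]) : ell M (-h) = -ell M h := by
  have := ell_C_mul M (-1) h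
  simpa using this

theorem ell_sub (M h h' : K[X]) : ell M (h - h') = ell M h - ell M h' := by
  rw [sub_eq_add_neg, ell_add, ell_neg, sub_eq_add_neg]

theorem ell_sum {ι : Type*} (M : K[X]) (s : Finset ι) (f : ι → K[X]) :
    ell M (∑ i ∈ s, f i) = ∑ i ∈ s, ell M (f i) := by
  classical
  induction s using Finset.induction_on with
  | empty => simp [ell_zero]
  | insert i s hi ih => rw [Finset.sum_insert hi, Finset.sum_insert hi, ell_add, ih]

/-- small degree -/
theorem ell_eq_zero {M h : K[X]} (H : h.natDegree + 2 ≤ M.natDegree) : ell M h = 0 := by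
  have hM : M ≠ 0 := by
    rintro rfl
    simp at H
  rw [ell_of_lt hM]
  · rw [coeff_eq_zero_of_natDegree_lt (by omega), zero_div]
  · exact degree_lt_degree (by omega)

theorem ell_dvd {M h : K[X]} (H : M ∣ h) : ell M h = 0 := by
  rw [ell_congr (h' := 0) (by simpa using H), ell_zero]

theorem ell_mul_right {M₁ M₂ : K[X]} (h1 : M₁ ≠ 0) (h2 : M₂ ≠ 0) (h : K[X]) :
    ell (M₁ * M₂) (h * M₂) = ell M₁ h := by
  have e1 : ell (M₁ * M₂) (h * M₂) = ell (M₁ * M₂) ((h % M₁) * M₂) := by
    apply ell_congr
    rw [← sub_mul]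
    exact mul_dvd_mul_right (dvd_sub_mod' _ _) _
  have hlt := degree_mod_lt h h1
  rw [e1, ell_of_lt (mul_ne_zero h1 h2)]
  · by_cases hd : M₁.natDegree = 0
    · have h0 : h % M₁ = 0 := by
        rw [EuclideanDomain.mod_eq_zero]
        obtain ⟨c, hc⟩ := natDegree_eq_zero.1 hd
        rw [← hc]
        apply IsUnit.dvd
        rw [isUnit_C, isUnit_iff_ne_zero]
        rintro rfl
        apply h1
        rw [← hc, C_0]
      unfold ell
      rw [h0]
      simp
    · have h3 : (h % M₁).natDegree ≤ M₁.natDegree - 1 := by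
        by_cases h0 : h % M₁ = 0
        · rw [h0]
          simp
        · have := (natDegree_lt_natDegree h0 hlt)
          omega
      unfold ell
      rw [natDegree_mul h1 h2, leadingCoeff_mul]
      have e2 : M₁.natDegree + M₂.natDegree - 1 = (M₁.natDegree - 1) + M₂.natDegree := by omega
      rw [e2, coeff_mul_add_eq_of_natDegree_le h3 le_rfl, ← leadingCoeff]
      have l1 : M₁.leadingCoeff ≠ 0 := leadingCoeff_ne_zero.2 h1
      have l2 : M₂.leadingCoeff ≠ 0 := leadingCoeff_ne_zero.2 h2
      field_simp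
  · rw [degree_mul, degree_mul]
    have : M₂.degree ≠ ⊥ := by rwa [Ne, degree_eq_bot]
    exact WithBot.add_lt_add_right this hlt

/-- Chinese remainder theorem for the functional -/
theorem ell_coprime {M₁ M₂ a b : K[X]} (h1 : M₁ ≠ 0) (h2 : M₂ ≠ 0) (hab : a * M₁ + b * M₂ = 1) (N : K[X]) :
    ell (M₁ * M₂) N = ell M₁ (N * b) + ell M₂ (N * a) := by
  have e : N = N * b * M₂ + N * a * M₁ := by linear_combination (-N) * hab
  conv_lhs => rw [e]
  rw [ell_add, ell_mul_right h1 h2, mul_comm M₁ M₂, ell_mul_right h2 h1]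

/-- simple zeros -/
theorem ell_simple {S : Finset K} {c : K} (hc : c ≠ 0) (h : K[X]) :
    ell (C c * ∏ x ∈ S, (X - C x)) h =
      ∑ x ∈ S, h.eval x / (derivative (C c * ∏ x ∈ S, (X - C x))).eval x := by
  classical
  have hp : (∏ x ∈ S, (X - C x)) = Lagrange.nodal S (id : K → K) := by
    rw [Lagrange.nodal_eq]
    rfl
  have hm : (∏ x ∈ S, (X - C x)).Monic := by
    rw [hp]
    exact Lagrange.nodal_monic
  have hn : (∏ x ∈ S, (X - C x)).natDegree = S.card := by
    rw [hp]
    exact Lagrange.natDegree_nodal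
  set M : K[X] := C c * ∏ x ∈ S, (X - C x) with hMd
  have hM0 : M ≠ 0 := mul_ne_zero (C_ne_zero.2 hc) hm.ne_zero
  have hdeg : M.natDegree = S.card := by
    rw [hMd, natDegree_C_mul hc, hn]
  have hlc : M.leadingCoeff = c := by
    rw [hMd, leadingCoeff_mul, leadingCoeff_C, hm.leadingCoeff, mul_one]
  have hlt : (h % M).degree < (S.card : WithBot ℕ) := by
    have := degree_mod_lt h hM0
    rwa [degree_eq_natDegree hM0, hdeg] at this
  unfold ell
  rw [hdeg, hlc, Lagrange.coeff_eq_sum (s := S) (v := (id : K → K)) Function.injective_id.injOn hlt, Finset.sum_div]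
  refine Finset.sum_congr rfl fun x hx => ?_
  have e1 : (h % M).eval x = h.eval x := by
    have h3 := EuclideanDomain.mod_add_div h M
    have h4 : M.eval x = 0 := by
      rw [hMd, eval_mul, eval_prod, Finset.prod_eq_zero hx, mul_zero]
      simp
    conv_rhs => rw [← h3]
    rw [eval_add, eval_mul, h4, zero_mul, add_zero]
  have e2 : (derivative M).eval x = c * ∏ j ∈ S.erase x, (x - j) := by
    rw [hMd, derivative_C_mul, eval_C_mul, hp]
    have := Lagrange.eval_nodal_derivative_eval_node_eq (v := (id : K → K)) hx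
    simp only [id] at this
    rw [this, Lagrange.eval_nodal]
    simp
  simp only [id]
  rw [e1, e2, div_div, mul_comm c]

end Pool.Agent.Q149.OP
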