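import Pool.Agent.Q149.OP.Ell

/-!
# Project OP, job RES, part 2: idempotents, derivations
-/

set_option autoImplicit false

namespace Pool.Agent.Q149.OP

open Polynomial Finset

variable {K : Type*} [Field K]

/-! ### derivations which preserve an ideal -/

theorem der_idem {M e : K[X]} (δ : Derivation ℤ K[X] K[X]) (hM : ∀ h, M ∣ h → M ∣ δ h) (he : M ∣ e * e - e) : M ∣ δ e := by
  have h1 := hM _ he
  rw [map_sub, Derivation.leibniz, smul_eq_mul] at h1
  have h2 : δ e = (2 * e - 1) * (e * δ e + e * δ e - δ e) - 4 * ((e * e - e) * δ e) := by ring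
  rw [h2]
  exact dvd_sub (Dvd.dvd.mul_left h1 _) (Dvd.dvd.mul_left (Dvd.dvd.mul_right he _) _)

theorem prod_dvd_der [Differential K] (E : K[X]) (s : Multiset K) (hE : ∀ x ∈ s, E.eval x = (Differential.deriv x : K)) :
    (s.map fun x => X - C x).prod ∣ Differential.implicitDeriv E (s.map fun x => X - C x).prod := by
  induction s using Multiset.induction_on with
  | empty => simp
  | cons x s ih =>
    rw [Multiset.map_cons, Multiset.prod_cons, Derivation.leibniz, smul_eq_mul, smul_eq_mul]
    refine dvd_add (mul_dvd_mul_left _ (ih fun y hy => hE y (Multiset.mem_cons_of_mem hy))) ?_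
    rw [mul_comm]
    refine mul_dvd_mul_left _ ?_
    rw [map_sub, Differential.implicitDeriv_X, Differential.implicitDeriv_C, dvd_iff_isRoot, IsRoot.def, eval_sub, eval_C,
      hE x (Multiset.mem_cons_self x s), sub_self]

theorem dvd_der [IsAlgClosed K] [Differential K] {M : K[X]} (E : K[X])
    (hE : ∀ x ∈ M.roots, E.eval x = (Differential.deriv x : K)) (h : K[X]) (hh : M ∣ h) :
    M ∣ Differential.implicitDeriv E h := by
  have h1 : M ∣ Differential.implicitDeriv E M := by
    by_cases hM : M = 0
    · subst hM
      simp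
    have hs := (IsAlgClosed.splits M).eq_prod_roots
    have hc : M.leadingCoeff ≠ 0 := leadingCoeff_ne_zero.2 hM
    have h2 : M ∣ (M.roots.map fun x => X - C x).prod := by
      conv_lhs => rw [hs]
      exact ⟨C (M.leadingCoeff⁻¹), by rw [mul_comm, ← mul_assoc, ← C_mul, inv_mul_cancel₀ hc, C_1, one_mul]⟩
    have h3 : Differential.implicitDeriv E M = C M.leadingCoeff * Differential.implicitDeriv E (M.roots.map fun x => X - C x).prod +
        (M.roots.map fun x => X - C x).prod * C (Differential.deriv M.leadingCoeff) := by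
      conv_lhs => rw [hs]
      rw [Derivation.leibniz, smul_eq_mul, smul_eq_mul, Differential.implicitDeriv_C]
    rw [h3]
    exact dvd_add (Dvd.dvd.mul_left (h2.trans (prod_dvd_der E M.roots hE)) _) (Dvd.dvd.mul_right h2 _)
  obtain ⟨k, rfl⟩ := hh
  rw [Derivation.leibniz, smul_eq_mul, smul_eq_mul]
  exact dvd_add (Dvd.dvd.mul_right dvd_rfl _) (Dvd.dvd.mul_left h1 _)

/-! ### the idempotents of a diagonalisable element -/

/-- the idempotent of the value `y` of `F` -/
noncomputable def ee (P : Finset K) (F : K[X]) (y : K) : K[X] := by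
  classical
  exact (Lagrange.basis P (id : K → K) y).comp F

theorem nodal_dvd (P : Finset K) {G : K[X]} (h : ∀ y ∈ P, G.eval y = 0) : Lagrange.nodal P (id : K → K) ∣ G := by
  classical
  rw [← EuclideanDomain.mod_eq_zero]
  have hlt : (G % Lagrange.nodal P (id : K → K)).degree < (P.card : WithBot ℕ) := by
    have := degree_mod_lt G (Lagrange.nodal_ne_zero (s := P) (v := (id : K → K)))
    rwa [degree_eq_natDegree Lagrange.nodal_ne_zero, Lagrange.natDegree_nodal] at this
  refine eq_zero_of_degree_lt_of_eval_finset_eq_zero P hlt fun y hy => ?_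
  have h3 := EuclideanDomain.mod_add_div G (Lagrange.nodal P (id : K → K))
  have h4 : (Lagrange.nodal P (id : K → K)).eval y = 0 := Lagrange.eval_nodal_at_node (v := (id : K → K)) hy
  have h5 := h y hy
  rw [← h3, eval_add, eval_mul, h4, zero_mul, add_zero] at h5
  exact h5

theorem comp_interp {M F : K[X]} {P : Finset K} (hP : M ∣ (Lagrange.nodal P (id : K → K)).comp F) (G : K[X]) :
    M ∣ G.comp F - ∑ y ∈ P, C (G.eval y) * ee P F y := by
  classical
  have h1 : Lagrange.nodal P (id : K → K) ∣ G - Lagrange.interpolate P (id : K → K) (fun y => G.eval y) := by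
    apply nodal_dvd
    intro y hy
    have := Lagrange.eval_interpolate_at_node (s := P) (v := (id : K → K)) (fun y => G.eval y) Function.injective_id.injOn hy
    simp only [id] at this
    rw [eval_sub, this, sub_self]
  obtain ⟨k, hk⟩ := h1
  have h2 : G.comp F - ∑ y ∈ P, C (G.eval y) * ee P F y = (Lagrange.nodal P (id : K → K)).comp F * k.comp F := by
    rw [← mul_comp, ← hk, sub_comp, Lagrange.interpolate_apply, Polynomial.sum_comp]
    congr 1
    refine Finset.sum_congr rfl fun y _ => ?_
    rw [mul_comp, C_comp]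
    unfold ee
    congr!
  rw [h2]
  exact Dvd.dvd.mul_right hP _

theorem comp_ee {M F : K[X]} {P : Finset K} (hP : M ∣ (Lagrange.nodal P (id : K → K)).comp F) (G : K[X]) {y : K} (hy : y ∈ P) :
    M ∣ G.comp F * ee P F y - C (G.eval y) * ee P F y := by
  classical
  have h1 := comp_interp hP (G * Lagrange.basis P (id : K → K) y)
  have h2 : ∑ x ∈ P, C ((G * Lagrange.basis P (id : K → K) y).eval x) * ee P F x = C (G.eval y) * ee P F y := by
    rw [Finset.sum_eq_single_of_mem y hy]
    · rw [eval_mul]
      have := Lagrange.eval_basis_self (s := P) (v := (id : K → K)) Function.injective_id.injOn hy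
      simp only [id] at this
      rw [this, mul_one]
    · intro x hx hxy
      have := Lagrange.eval_basis_of_ne (s := P) (v := (id : K → K)) (i := y) (j := x) (Ne.symm hxy) hx
      simp only [id] at this
      rw [eval_mul, this, mul_zero, C_0, zero_mul]
  rw [h2, mul_comp] at h1
  unfold ee at h1 ⊢
  convert! h1 using 3

theorem ee_idem {M F : K[X]} {P : Finset K} (hP : M ∣ (Lagrange.nodal P (id : K → K)).comp F) {y : K} (hy : y ∈ P) :
    M ∣ ee P F y * ee P F y - ee P F y := by
  classical
  have h1 := comp_ee hP (Lagrange.basis P (id : K → K) y) hy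
  have := Lagrange.eval_basis_self (s := P) (v := (id : K → K)) Function.injective_id.injOn hy
  simp only [id] at this
  rw [this, C_1, one_mul] at h1
  unfold ee at h1 ⊢
  convert! h1 using 3

theorem ee_sum {M F : K[X]} {P : Finset K} (hP : M ∣ (Lagrange.nodal P (id : K → K)).comp F) :
    M ∣ 1 - ∑ y ∈ P, ee P F y := by
  have h1 := comp_interp hP 1
  simpa using h1

end Pool.Agent.Q149.OP
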