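import Pool.Agent.Q149.OP.Res1

/-!
# Project OP, job RES, part 3: the numerator of the quadratic differential
-/

set_option autoImplicit false

namespace Pool.Agent.Q149.OP

open Polynomial Finset

variable {K : Type*} [Field K]

/-- the polynomial with the zeros `P` -/
noncomputable abbrev nd (P : Finset K) : K[X] := Lagrange.nodal P (id : K → K)

/-- the numerator of `∑ a x / (z - x)` -/
noncomputable def Sa (P : Finset K) (a : K → K) : K[X] := by
  classical
  exact ∑ x ∈ P, C (a x) * nd (P.erase x)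

theorem nd_ne (P : Finset K) : nd P ≠ 0 := Lagrange.nodal_ne_zero

theorem nd_deg (P : Finset K) : (nd P).natDegree = P.card := Lagrange.natDegree_nodal

theorem nd_eq (P : Finset K) : nd P = C 1 * ∏ x ∈ P, (X - C x) := by
  rw [C_1, one_mul]
  exact Lagrange.nodal_eq _ _

theorem eval_nd (P : Finset K) (z : K) : (nd P).eval z = ∏ x ∈ P, (z - x) := by
  rw [Lagrange.eval_nodal]
  rfl

theorem nd_eval_eq_zero {P : Finset K} {z : K} : (nd P).eval z = 0 ↔ z ∈ P := by
  rw [eval_nd, Finset.prod_eq_zero_iff]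
  constructor
  · rintro ⟨x, hx, h⟩
    rw [sub_eq_zero] at h
    rwa [h]
  · intro h
    exact ⟨z, h, sub_self z⟩

theorem Sa_add (P : Finset K) (a b : K → K) : Sa P (a + b) = Sa P a + Sa P b := by
  unfold Sa
  rw [← Finset.sum_add_distrib]
  refine Finset.sum_congr rfl fun x _ => ?_
  rw [Pi.add_apply, C_add, add_mul]

theorem Sa_smul (P : Finset K) (c : K) (a : K → K) : Sa P (c • a) = C c * Sa P a := by
  unfold Sa
  rw [Finset.mul_sum]
  refine Finset.sum_congr rfl fun x _ => ?_
  rw [Pi.smul_apply, smul_eq_mul, C_mul, mul_assoc]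

theorem Sa_eval {P : Finset K} (a : K → K) {x : K} (hx : x ∈ P) : (Sa P a).eval x = a x * (derivative (nd P)).eval x := by
  classical
  have h1 := Lagrange.eval_nodal_derivative_eval_node_eq (s := P) (v := (id : K → K)) hx
  simp only [id] at h1
  unfold Sa
  rw [h1, eval_finsetSum, Finset.sum_eq_single_of_mem x hx]
  · rw [eval_C_mul]
  · intro y hy hxy
    rw [eval_C_mul, nd_eval_eq_zero.2, mul_zero]
    exact Finset.mem_erase.2 ⟨Ne.symm hxy, hx⟩

theorem Sa_eval_div {P : Finset K} (a : K → K) {z : K} (hz : z ∉ P) : (Sa P a).eval z / (nd P).eval z = ∑ x ∈ P, a x / (z - x) := by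
  classical
  have h0 : (nd P).eval z ≠ 0 := fun h => hz (nd_eval_eq_zero.1 h)
  unfold Sa
  rw [eval_finsetSum, Finset.sum_div]
  refine Finset.sum_congr rfl fun x hx => ?_
  have h1 : z - x ≠ 0 := by
    rw [sub_ne_zero]
    rintro rfl
    exact hz hx
  rw [eval_C_mul, div_eq_div_iff h0 h1, eval_nd, eval_nd, ← Finset.mul_prod_erase P (fun x => z - x) hx]
  have : (∏ y ∈ P.erase x, (z - y)) = ∏ y ∈ P.erase x, (z - y) := rfl
  ring_nf

theorem nd_der_ne {P : Finset K} {x : K} (hx : x ∈ P) : (derivative (nd P)).eval x ≠ 0 := by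
  classical
  have h1 := Lagrange.eval_nodal_derivative_eval_node_eq (s := P) (v := (id : K → K)) hx
  simp only [id] at h1
  rw [h1]
  intro h
  have := (nd_eval_eq_zero (P := P.erase x)).1 h
  exact (Finset.notMem_erase x P) this

theorem ell_Sa (P : Finset K) (a : K → K) (h : K[X]) : ell (nd P) (Sa P a * h) = ∑ x ∈ P, a x * h.eval x := by
  conv_lhs => rw [nd_eq]
  rw [ell_simple one_ne_zero, ← nd_eq]
  refine Finset.sum_congr rfl fun x hx => ?_
  rw [eval_mul, Sa_eval a hx]
  have := nd_der_ne hx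
  field_simp

theorem Sa_degree_lt (P : Finset K) (a : K → K) : (Sa P a).degree < (P.card : WithBot ℕ) := by
  classical
  unfold Sa
  by_cases hP : P = ∅
  · subst hP
    simp
  refine lt_of_le_of_lt (degree_sum_le _ _) ?_
  rw [Finset.sup_lt_iff (by exact_mod_cast WithBot.bot_lt_coe _)]
  intro x hx
  refine lt_of_le_of_lt (degree_mul_le _ _) ?_
  have h1 : (C (a x)).degree ≤ 0 := degree_C_le
  have h2 : (nd (P.erase x)).degree = ((P.erase x).card : WithBot ℕ) := by
    rw [degree_eq_natDegree (nd_ne _), nd_deg]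
  have h3 : (P.erase x).card < P.card := Finset.card_erase_lt_of_mem hx
  calc (C (a x)).degree + (nd (P.erase x)).degree ≤ 0 + ((P.erase x).card : WithBot ℕ) := by
        rw [h2]
        gcongr
    _ = ((P.erase x).card : WithBot ℕ) := zero_add _
    _ < (P.card : WithBot ℕ) := by exact_mod_cast h3

theorem Sa_deg {P : Finset K} {a : K → K} (h0 : ∑ x ∈ P, a x = 0) (h1 : ∑ x ∈ P, a x * x = 0) (h2 : ∑ x ∈ P, a x * x ^ 2 = 0) :
    Sa P a = 0 ∨ (Sa P a).natDegree + 4 ≤ P.card := by
  by_cases hS : Sa P a = 0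
  · exact Or.inl hS
  right
  by_contra hlt
  push Not at hlt
  have hd := Sa_degree_lt P a
  rw [degree_eq_natDegree hS] at hd
  have hd' : (Sa P a).natDegree < P.card := by exact_mod_cast hd
  obtain ⟨j, hj, hj2⟩ : ∃ j, (Sa P a).natDegree + j + 1 = P.card ∧ j ≤ 2 :=
    ⟨P.card - 1 - (Sa P a).natDegree, by omega, by omega⟩
  have e1 : ell (nd P) (Sa P a * X ^ j) = 0 := by
    rw [ell_Sa]
    simp only [eval_pow, eval_X]
    interval_cases j
    · simpa using h0
    · simpa using h1
    · exact h2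
  have e2 : ell (nd P) (Sa P a * X ^ j) = (Sa P a).leadingCoeff := by
    have h3 : (Sa P a * X ^ j).natDegree = P.card - 1 := by
      rw [natDegree_mul_X_pow j hS]
      omega
    have h4 : (Sa P a * X ^ j) ≠ 0 := mul_ne_zero hS (pow_ne_zero _ X_ne_zero)
    rw [ell_of_lt (nd_ne P)]
    · have h5 : (nd P).leadingCoeff = 1 := Lagrange.nodal_monic
      rw [h5, div_one, nd_deg, ← h3, ← leadingCoeff, leadingCoeff_mul, leadingCoeff_X_pow, mul_one]
    · apply degree_lt_degree
      rw [h3, nd_deg]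
      omega
  rw [e1] at e2
  exact hS (leadingCoeff_eq_zero.1 e2.symm)

end Pool.Agent.Q149.OP
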